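import Mathlib

/-!
H2: the Cantor tree of vectors.
-/

set_option autoImplicit false

namespace Pool.Agent.Lib.SI31

open Filter Topology

private lemma exists_orth {E : Type*} [NormedAddCommGroup E] [InnerProductSpace ℂ E]
    [CompleteSpace E] (F : Submodule ℂ E) (hF : IsClosed (F : Set E))
    (hFd : ¬ FiniteDimensional ℂ F) (y : E) :
    ∃ e : List Bool → E, Orthonormal ℂ e ∧ (∀ t, e t ∈ F) ∧ ∀ t, inner ℂ y (e t) = 0 := by
  set G : Submodule ℂ E := F ⊓ (ℂ ∙ y)ᗮ with hG
  have hGc : IsClosed (G : Set E) := hF.inter (Submodule.isClosed_orthogonal _)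
  have hGd : ¬ FiniteDimensional ℂ G := by
    intro h
    apply hFd
    let φ : F →ₗ[ℂ] ℂ := (innerSL ℂ y).toLinearMap.comp F.subtype
    have hker : FiniteDimensional ℂ (LinearMap.ker φ) := by
      let g : LinearMap.ker φ →ₗ[ℂ] G :=
        { toFun := fun v => ⟨(v : F), by
            refine ⟨(v : F).2, ?_⟩
            have hv : φ (v : F) = 0 := v.2
            exact Submodule.mem_orthogonal_singleton_iff_inner_right.2 hv⟩
          map_add' := fun a b => rfl
          map_smul' := fun a b => rfl }
      refine FiniteDimensional.of_injective g ?_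
      intro a b hab
      apply Subtype.ext
      apply Subtype.ext
      exact congrArg (fun v : G => (v : E)) hab
    have h1 : IsNoetherian ℂ (LinearMap.ker φ) := inferInstance
    have h2 : IsNoetherian ℂ ℂ := inferInstance
    have h3 : IsNoetherian ℂ F := isNoetherian_of_range_eq_ker (LinearMap.ker φ).subtype φ
      (by rw [Submodule.range_subtype])
    exact IsNoetherian.iff_fg.1 h3
  have : CompleteSpace G := hGc.completeSpace_coe
  obtain ⟨w, b, hb⟩ := exists_hilbertBasis ℂ G
  have hw : Infinite w := by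
    by_contra h
    rw [not_infinite_iff_finite] at h
    apply hGd
    have hfin : FiniteDimensional ℂ (Submodule.span ℂ (Set.range b)) :=
      FiniteDimensional.span_of_finite ℂ (Set.finite_range b)
    have hcl : IsClosed (Submodule.span ℂ (Set.range b) : Set G) :=
      Submodule.closed_of_finiteDimensional _
    have h4 := b.dense_span
    rw [hcl.submodule_topologicalClosure_eq] at h4
    rw [h4] at hfin
    exact (Submodule.topEquiv (R := ℂ) (M := G)).finiteDimensional
  let emb : ℕ ↪ w := Infinite.natEmbedding w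
  have horth : Orthonormal ℂ (fun t : List Bool => b (emb (Encodable.encode t))) :=
    b.orthonormal.comp _ (fun s t h => Encodable.encode_injective (emb.injective h))
  refine ⟨fun t => (b (emb (Encodable.encode t)) : E), ?_, ?_, ?_⟩
  · exact horth.comp_linearIsometry G.subtypeₗᵢ
  · intro t
    exact (b (emb (Encodable.encode t))).2.1
  · intro t
    exact Submodule.mem_orthogonal_singleton_iff_inner_right.1 (b (emb (Encodable.encode t))).2.2

/-- prefix of length `i` -/
private def pre (s : ℕ → Bool) (i : ℕ) : List Bool := (List.range i).map s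

private lemma pre_len (s : ℕ → Bool) (i : ℕ) : (pre s i).length = i := by
  simp [pre]

private lemma pre_eq {s t : ℕ → Bool} {i : ℕ} : pre s i = pre t i ↔ ∀ j < i, s j = t j := by
  unfold pre
  rw [List.map_inj_left]
  simp

theorem tree {E : Type*} [NormedAddCommGroup E] [InnerProductSpace ℂ E] [CompleteSpace E]
    (F : Submodule ℂ E) (hF : IsClosed (F : Set E)) (hFd : ¬ FiniteDimensional ℂ F)
    (y : E) (hy : y ≠ 0) :
    ∃ x : (ℕ → Bool) → E, (∀ s, x s ∈ F) ∧ (∀ s, x s ≠ 0) ∧
      ∀ (s : ℕ → Bool) (sk : ℕ → ℕ → Bool) (d : ℕ → ℕ) (ψ : ℕ → ℂ) (z : ℂ),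
        (∀ k, ∀ i < d k, sk k i = s i) → (∀ k, sk k (d k) ≠ s (d k)) →
        (∀ k, d k < d (k + 1)) →
        (∀ k, ‖ψ k - z‖ ≤ (1 / 2) ^ k * (1 / 2) ^ (d k + 1)) →
        x s + y ∈ (Submodule.span ℂ (Set.range fun k => x (sk k) + ψ k • y)).topologicalClosure →
        z = 1 := by
  classical
  obtain ⟨e, he, heF, hey⟩ := exists_orth F hF hFd y
  have hnorm : ∀ t, ‖e t‖ = 1 := he.1
  have hsum : ∀ s : ℕ → Bool, Summable (fun i : ℕ => ((1 / 2 : ℂ) ^ i) • e (pre s i)) := by
    intro s
    apply Summable.of_norm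
    have : (fun i : ℕ => ‖((1 / 2 : ℂ) ^ i) • e (pre s i)‖) = fun i : ℕ => (1 / 2 : ℝ) ^ i := by
      funext i
      rw [norm_smul, hnorm, mul_one, norm_pow]
      norm_num
    rw [this]
    exact summable_geometric_of_lt_one (by norm_num) (by norm_num)
  let x : (ℕ → Bool) → E := fun s => ∑' i : ℕ, ((1 / 2 : ℂ) ^ i) • e (pre s i)
  -- coordinates
  have hxe : ∀ (s : ℕ → Bool) (t : List Bool), inner ℂ (e t) (x s) =
      if pre s t.length = t then (1 / 2 : ℂ) ^ t.length else 0 := by
    intro s t
    have h1 : inner ℂ (e t) (x s) = ∑' i : ℕ, inner ℂ (e t) (((1 / 2 : ℂ) ^ i) • e (pre s i)) :=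
      (innerSL ℂ (e t)).map_tsum (hsum s)
    rw [h1, tsum_eq_single t.length]
    · rw [inner_smul_right, orthonormal_iff_ite.1 he]
      by_cases h : pre s t.length = t
      · rw [if_pos h, if_pos h.symm, mul_one]
      · rw [if_neg h, if_neg (fun h' => h h'.symm), mul_zero]
    · intro i hi
      rw [inner_smul_right, orthonormal_iff_ite.1 he, if_neg, mul_zero]
      intro h
      apply hi
      rw [h, pre_len]
  have hxy : ∀ s, inner ℂ y (x s) = 0 := by
    intro s
    have h1 : inner ℂ y (x s) = ∑' i : ℕ, inner ℂ y (((1 / 2 : ℂ) ^ i) • e (pre s i)) :=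
      (innerSL ℂ y).map_tsum (hsum s)
    rw [h1]
    have : (fun i : ℕ => inner ℂ y (((1 / 2 : ℂ) ^ i) • e (pre s i))) = fun _ => 0 := by
      funext i
      rw [inner_smul_right, hey, mul_zero]
    rw [this, tsum_zero]
  have hx0 : ∀ s, inner ℂ (e []) (x s) = 1 := by
    intro s
    rw [hxe]
    simp [pre]
  refine ⟨x, ?_, ?_, ?_⟩
  · intro s
    refine hF.mem_of_tendsto (hsum s).hasSum (Eventually.of_forall fun A => ?_)
    exact F.sum_mem fun i _ => F.smul_mem _ (heF _)
  · intro s h
    have := hx0 s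
    rw [h, inner_zero_right] at this
    exact zero_ne_one this
  · intro s sk d ψ z h1 h2 h3 h4 h5
    have hd : StrictMono d := strictMono_nat_of_lt_succ h3
    let ek : ℕ → List Bool := fun k => pre (sk k) (d k + 1)
    let γ : ℕ → ℂ := fun k => (z - ψ k) * 2 ^ (d k + 1)
    have hγ : ∀ k, ‖γ k‖ ≤ (1 / 2) ^ k := by
      intro k
      show ‖(z - ψ k) * 2 ^ (d k + 1)‖ ≤ _
      rw [norm_mul, norm_sub_rev, norm_pow]
      have h6 := mul_le_mul_of_nonneg_right (h4 k) (by positivity : (0 : ℝ) ≤ 2 ^ (d k + 1))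
      have h7 : (1 / 2 : ℝ) ^ k * (1 / 2) ^ (d k + 1) * 2 ^ (d k + 1) = (1 / 2) ^ k := by
        rw [mul_assoc, ← mul_pow]; norm_num
      rw [h7] at h6
      simpa using h6
    have hW : Summable (fun k : ℕ => (starRingEnd ℂ (γ k)) • e (ek k)) := by
      apply Summable.of_norm_bounded (g := fun k : ℕ => (1 / 2 : ℝ) ^ k)
      · exact summable_geometric_of_lt_one (by norm_num) (by norm_num)
      · intro k
        rw [norm_smul, hnorm, mul_one, RCLike.norm_conj]
        exact hγ k
    set W : E := ∑' k : ℕ, (starRingEnd ℂ (γ k)) • e (ek k) with hWdef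
    have hWin : ∀ v, inner ℂ v W = ∑' k : ℕ, inner ℂ v ((starRingEnd ℂ (γ k)) • e (ek k)) :=
      fun v => (innerSL ℂ v).map_tsum hW
    have hlen : ∀ k, (ek k).length = d k + 1 := fun k => pre_len _ _
    -- values of the functionals
    have hval : ∀ m k, inner ℂ (e (ek k)) (x (sk m)) =
        if k = m then (1 / 2 : ℂ) ^ (d k + 1) else 0 := by
      intro m k
      rw [hxe, hlen]
      by_cases hkm : k = m
      · subst hkm
        rw [if_pos rfl, if_pos rfl]
      · rw [if_neg hkm, if_neg]
        intro h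
        have h' : ∀ j < d k + 1, sk m j = sk k j := pre_eq.1 h
        rcases lt_or_gt_of_ne hkm with hlt | hgt
        · have hdk := hd hlt
          have e1 := h' (d k) (by omega)
          have e2 := h1 m (d k) hdk
          exact h2 k (by rw [← e1, e2])
        · have hdk := hd hgt
          have e1 := h' (d m) (by omega)
          have e2 := h1 k (d m) hdk
          exact h2 m (by rw [e1, e2])
    have hvals : ∀ k, inner ℂ (e (ek k)) (x s) = 0 := by
      intro k
      rw [hxe, hlen, if_neg]
      intro h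
      have h' : ∀ j < d k + 1, s j = sk k j := pre_eq.1 h
      exact h2 k (h' (d k) (by omega)).symm
    have hconj : ∀ n : ℕ, (starRingEnd ℂ) ((1 / 2 : ℂ) ^ n) = (1 / 2 : ℂ) ^ n := by
      intro n
      rw [map_pow, map_div₀, map_one, Complex.conj_ofNat]
    have hWx : ∀ m, inner ℂ (x (sk m)) W = (starRingEnd ℂ) (γ m) * (1 / 2 : ℂ) ^ (d m + 1) := by
      intro m
      rw [hWin, tsum_eq_single m]
      · rw [inner_smul_right, ← inner_conj_symm, hval, if_pos rfl, hconj]
      · intro k hk
        rw [inner_smul_right, ← inner_conj_symm, hval, if_neg hk]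
        simp
    have hWs : inner ℂ (x s) W = 0 := by
      rw [hWin]
      have : (fun k : ℕ => inner ℂ (x s) ((starRingEnd ℂ (γ k)) • e (ek k))) = fun _ => 0 := by
        funext k
        rw [inner_smul_right, ← inner_conj_symm, hvals]
        simp
      rw [this, tsum_zero]
    have hWy : inner ℂ y W = 0 := by
      rw [hWin]
      have : (fun k : ℕ => inner ℂ y ((starRingEnd ℂ (γ k)) • e (ek k))) = fun _ => 0 := by
        funext k
        rw [inner_smul_right, hey, mul_zero]
      rw [this, tsum_zero]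
    have hyy : inner ℂ y y ≠ (0 : ℂ) := by
      rw [Ne, inner_self_eq_zero]
      exact hy
    set w : E := (inner ℂ y y)⁻¹ • y - (starRingEnd ℂ z) • e [] + W with hwdef
    have hw : ∀ v, inner ℂ v w = (inner ℂ y y)⁻¹ * inner ℂ v y -
        (starRingEnd ℂ z) * inner ℂ v (e []) + inner ℂ v W := by
      intro v
      rw [hwdef, inner_add_right, inner_sub_right, inner_smul_right, inner_smul_right]
    have hxy' : ∀ s, inner ℂ (x s) y = 0 := by
      intro s
      rw [← inner_conj_symm, hxy]; simp
    have hx0' : ∀ s, inner ℂ (x s) (e []) = 1 := by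
      intro s
      rw [← inner_conj_symm, hx0]; simp
    have hkill : ∀ k, inner ℂ (x (sk k) + ψ k • y) w = 0 := by
      intro k
      rw [inner_add_left, inner_smul_left, hw, hw, hxy', hx0', hWx, hWy, hey]
      rw [inv_mul_cancel₀ hyy]
      show _ = (0 : ℂ)
      have : (starRingEnd ℂ) (γ k) * (1 / 2 : ℂ) ^ (d k + 1) =
          (starRingEnd ℂ z) - (starRingEnd ℂ (ψ k)) := by
        show (starRingEnd ℂ) ((z - ψ k) * 2 ^ (d k + 1)) * (1 / 2 : ℂ) ^ (d k + 1) = _
        rw [map_mul, map_sub, map_pow]
        have h8 : (starRingEnd ℂ) (2 : ℂ) = 2 := Complex.conj_ofNat 2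
        rw [h8, mul_assoc, ← mul_pow]
        norm_num
      rw [this]
      ring
    have hle : (Submodule.span ℂ (Set.range fun k => x (sk k) + ψ k • y)).topologicalClosure ≤
        (ℂ ∙ w)ᗮ := by
      refine Submodule.topologicalClosure_minimal _ ?_ (Submodule.isClosed_orthogonal _)
      rw [Submodule.span_le]
      rintro _ ⟨k, rfl⟩
      exact Submodule.mem_orthogonal_singleton_iff_inner_left.2 (hkill k)
    have h9 := Submodule.mem_orthogonal_singleton_iff_inner_left.1 (hle h5)
    rw [inner_add_left, hw, hw, hxy', hx0', hWs, hWy, hey, inv_mul_cancel₀ hyy] at h9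
    have h10 : (starRingEnd ℂ) z = 1 := by
      linear_combination -h9
    have h11 := congrArg (starRingEnd ℂ) h10
    simpa using h11

end Pool.Agent.Lib.SI31
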